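import Pool.Agent.helper71.DSW.SpecB

/-! Row dsw:KAP. -/

set_option autoImplicit false

namespace Pool.Agent.DSW

open Equiv Finset Function Pool.Agent.helper48.PP
open scoped ENNReal Classical

noncomputable section

theorem KAP_inj {L : ℕ} (e : Arr L) : Function.Injective (cellAt e) := by
  intro u v h
  exact congrArg Prod.fst h

theorem KAP_card {L : ℕ} {m m' : Fin L → ℕ} {e : Arr L} {F : Finset (Cell L)} (hF : F ∈ Bad m m' e) :
    1 ≤ F.card ∧ (F.image Prod.fst).card = F.card ∧ (3 ≤ F.card → F.image Prod.fst ∈ CN L) := by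
  unfold Bad at hF
  rw [Finset.mem_filter] at hF
  obtain ⟨-, e', hm, rfl⟩ := hF
  have h1 : ((mov e e').image (cellAt e')).card = (mov e e').card :=
    Finset.card_image_of_injective _ (KAP_inj e')
  have h2 : ((mov e e').image (cellAt e')).image Prod.fst = mov e e' := by
    rw [Finset.image_image]
    have h3 : (Prod.fst ∘ cellAt e' : Fin L × Fin L → Fin L × Fin L) = id := by
      funext u
      rfl
    rw [h3, Finset.image_id]
  obtain ⟨_, _, hc, _⟩ := hm
  refine ⟨?_, ?_, ?_⟩
  · rw [h1]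
    exact Finset.card_pos.2 hc.1
  · rw [h2, h1]
  · intro h3
    rw [h2]
    unfold CN
    rw [Finset.mem_filter]
    refine ⟨Finset.mem_univ _, hc, ?_⟩
    rw [h1] at h3
    exact h3

theorem KAP (hB1N : B1N_stmt) (hB2N : B2N_stmt) (hB3N : B3N_stmt) : KAP_stmt := by
  intro L a c p hp0 hp1
  set B := Bad (len a) (len c) (arr a c) with hB
  have hf0 : ∀ r : ℕ, 0 ≤ 1 - p ^ r := fun r => by
    have := pow_le_one₀ (n := r) hp0 hp1
    linarith
  have hf1 : ∀ r : ℕ, 1 - p ^ r ≤ 1 := fun r => by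
    have := pow_nonneg hp0 r
    linarith
  have hsplit : ∏ F ∈ B, (1 - p ^ F.card) = (∏ F ∈ B.filter (fun F => F.card = 1), (1 - p ^ F.card)) *
      (∏ F ∈ B.filter (fun F => F.card = 2), (1 - p ^ F.card)) *
      ∏ F ∈ B.filter (fun F => 3 ≤ F.card), (1 - p ^ F.card) := by
    rw [← Finset.prod_filter_mul_prod_filter_not B (fun F => F.card = 1) (fun F => 1 - p ^ F.card),
      ← Finset.prod_filter_mul_prod_filter_not (B.filter (fun F => ¬ F.card = 1)) (fun F => F.card = 2)
        (fun F => 1 - p ^ F.card), mul_assoc]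
    have e1 : (B.filter (fun F => ¬ F.card = 1)).filter (fun F => F.card = 2) =
        B.filter (fun F => F.card = 2) := by
      rw [Finset.filter_filter]
      refine Finset.filter_congr (fun F _ => ?_)
      constructor
      · exact fun h => h.2
      · exact fun h => ⟨by omega, h⟩
    have e2 : (B.filter (fun F => ¬ F.card = 1)).filter (fun F => ¬ F.card = 2) =
        B.filter (fun F => 3 ≤ F.card) := by
      rw [Finset.filter_filter]
      refine Finset.filter_congr (fun F hF => ?_)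
      have := (KAP_card hF).1
      constructor
      · rintro ⟨h1, h2⟩
        omega
      · intro h
        exact ⟨by omega, by omega⟩
    rw [e1, e2]
  have hP1 : ∏ u, (1 - p) ^ n1 a c u ≤ ∏ F ∈ B.filter (fun F => F.card = 1), (1 - p ^ F.card) := by
    have e1 : ∏ F ∈ B.filter (fun F => F.card = 1), (1 - p ^ F.card) =
        (1 - p) ^ (B.filter (fun F => F.card = 1)).card := by
      rw [← Finset.prod_const]
      refine Finset.prod_congr rfl (fun F hF => ?_)
      rw [(Finset.mem_filter.1 hF).2, pow_one]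
    rw [e1, Finset.prod_pow_eq_pow_sum]
    have h0 := hf0 1
    have h1 := hf1 1
    rw [pow_one] at h0 h1
    exact pow_le_pow_of_le_one h0 h1 (hB1N L a c)
  have hP2 : ∏ q ∈ VP L, (1 - p ^ 2) ^ n2 a c q ≤ ∏ F ∈ B.filter (fun F => F.card = 2), (1 - p ^ F.card) := by
    have e1 : ∏ F ∈ B.filter (fun F => F.card = 2), (1 - p ^ F.card) =
        (1 - p ^ 2) ^ (B.filter (fun F => F.card = 2)).card := by
      rw [← Finset.prod_const]
      refine Finset.prod_congr rfl (fun F hF => ?_)
      rw [(Finset.mem_filter.1 hF).2]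
    rw [e1, Finset.prod_pow_eq_pow_sum]
    exact pow_le_pow_of_le_one (hf0 2) (hf1 2) (hB2N L a c)
  have hP3 : ∏ R ∈ CN L, (1 - p ^ R.card) ^ n3 a c R ≤
      ∏ F ∈ B.filter (fun F => 3 ≤ F.card), (1 - p ^ F.card) := by
    have hmaps : ∀ F ∈ B.filter (fun F => 3 ≤ F.card), F.image Prod.fst ∈ CN L := by
      intro F hF
      rw [Finset.mem_filter] at hF
      exact (KAP_card hF.1).2.2 hF.2
    rw [← Finset.prod_fiberwise_of_maps_to hmaps]
    refine Finset.prod_le_prod (fun R _ => pow_nonneg (hf0 _) _) (fun R _ => ?_)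
    have e1 : ∏ F ∈ (B.filter (fun F => 3 ≤ F.card)).filter (fun F => F.image Prod.fst = R), (1 - p ^ F.card) =
        (1 - p ^ R.card) ^ ((B.filter (fun F => 3 ≤ F.card)).filter (fun F => F.image Prod.fst = R)).card := by
      rw [← Finset.prod_const]
      refine Finset.prod_congr rfl (fun F hF => ?_)
      rw [Finset.mem_filter, Finset.mem_filter] at hF
      rw [← (KAP_card hF.1.1).2.1, hF.2]
    rw [e1]
    refine pow_le_pow_of_le_one (hf0 _) (hf1 _) ((Finset.card_le_card ?_).trans (hB3N L a c R))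
    exact Finset.filter_subset_filter _ (Finset.filter_subset _ _)
  have hn1 : 0 ≤ ∏ u, (1 - p) ^ n1 a c u := by
    have h0 := hf0 1
    rw [pow_one] at h0
    exact Finset.prod_nonneg (fun u _ => pow_nonneg h0 _)
  have hn2 : 0 ≤ ∏ q ∈ VP L, (1 - p ^ 2) ^ n2 a c q :=
    Finset.prod_nonneg (fun q _ => pow_nonneg (hf0 2) _)
  have hn3 : 0 ≤ ∏ R ∈ CN L, (1 - p ^ R.card) ^ n3 a c R :=
    Finset.prod_nonneg (fun R _ => pow_nonneg (hf0 _) _)
  rw [hsplit]
  unfold kap
  exact mul_le_mul (mul_le_mul hP1 hP2 hn2 (hn1.trans hP1)) hP3 hn3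
    (mul_nonneg (hn1.trans hP1) (hn2.trans hP2))

end

end Pool.Agent.DSW
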